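import Pool.Agent.Helper8.UN.Stmts

set_option autoImplicit false

open Finset

namespace Pool.Agent.Helper8.UN

theorem swp_total {n : ℕ} {S T : Finset (Fin n → ℕ)} {ω : (Fin n → ℕ) → (Fin n → ℕ) → ℝ}
    (h : Cpl S T ω) (hS : S.Nonempty) : ∑ f ∈ S, ∑ g ∈ T, ω f g = 1 := by
  have hc : (0 : ℝ) < (S.card : ℝ) := by exact_mod_cast Finset.card_pos.mpr hS
  rw [Finset.sum_congr rfl h.l, Finset.sum_const, nsmul_eq_mul]
  field_simp

theorem swp_nonneg {n : ℕ} {S T : Finset (Fin n → ℕ)} {ω : (Fin n → ℕ) → (Fin n → ℕ) → ℝ}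
    (h : Cpl S T ω) (z : Fin n) : 0 ≤ pne S T ω z := by
  unfold pne
  refine Finset.sum_nonneg fun f _ => Finset.sum_nonneg fun g _ => ?_
  split_ifs
  · exact le_refl _
  · exact h.nn f g

theorem swp_le_one {n : ℕ} {S T : Finset (Fin n → ℕ)} {ω : (Fin n → ℕ) → (Fin n → ℕ) → ℝ}
    (h : Cpl S T ω) (hS : S.Nonempty) (z : Fin n) : pne S T ω z ≤ 1 := by
  rw [← swp_total h hS]
  unfold pne
  refine Finset.sum_le_sum fun f _ => Finset.sum_le_sum fun g _ => ?_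
  split_ifs
  · exact h.nn f g
  · exact le_refl _

theorem swp_zero {n : ℕ} {S T : Finset (Fin n → ℕ)} {ω : (Fin n → ℕ) → (Fin n → ℕ) → ℝ}
    (z : Fin n) (hz : ∀ f ∈ S, ∀ g ∈ T, f z = g z) : pne S T ω z = 0 := by
  unfold pne
  refine Finset.sum_eq_zero fun f hf => Finset.sum_eq_zero fun g hg => ?_
  rw [if_pos (hz f hf g hg)]

theorem swp_prod {n : ℕ} {S T : Finset (Fin n → ℕ)} (hS : S.Nonempty) (hT : T.Nonempty) :
    Cpl S T (fun _ _ => 1 / ((S.card : ℝ) * (T.card : ℝ))) := by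
  have hc : (0 : ℝ) < (S.card : ℝ) := by exact_mod_cast Finset.card_pos.mpr hS
  have hd : (0 : ℝ) < (T.card : ℝ) := by exact_mod_cast Finset.card_pos.mpr hT
  refine ⟨fun f g => by positivity, fun f _ => ?_, fun g _ => ?_⟩
  · rw [Finset.sum_const, nsmul_eq_mul]
    field_simp
  · rw [Finset.sum_const, nsmul_eq_mul]
    field_simp

theorem swp_sweep (h1 : ST_UPD) {n : ℕ} {S T : Finset (Fin n → ℕ)} {W : Finset (Fin n)}
    {α β : ℝ} (hS : S.Nonempty) (hT : T.Nonempty)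
    (hstep : ∀ ω : (Fin n → ℕ) → (Fin n → ℕ) → ℝ, Cpl S T ω → ∀ M : ℝ,
      (∀ z, pne S T ω z ≤ M) →
      ∀ y ∈ W, ∑ f ∈ S, ∑ g ∈ T, ω f g * tv (fib S f y) (fib T g y) ≤ α + β * M)
    {M : ℝ} (hM : α + β * M ≤ M) {ω : (Fin n → ℕ) → (Fin n → ℕ) → ℝ} (hω : Cpl S T ω)
    (hωM : ∀ z, pne S T ω z ≤ M) (U : Finset (Fin n)) (hU : U ⊆ W) :
    ∃ ω' : (Fin n → ℕ) → (Fin n → ℕ) → ℝ, Cpl S T ω' ∧ (∀ z, pne S T ω' z ≤ M) ∧
      ∀ z ∈ U, pne S T ω' z ≤ α + β * M := by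
  induction U using Finset.induction_on with
  | empty => exact ⟨ω, hω, hωM, fun z hz => absurd hz (Finset.notMem_empty z)⟩
  | insert y U hy ih =>
    obtain ⟨ω₁, hc, hM1, hU1⟩ := ih ((Finset.subset_insert y U).trans hU)
    obtain ⟨ω₂, hc2, hne, hy2⟩ := h1 n S T ω₁ y hc hS hT
    have hyW : y ∈ W := hU (Finset.mem_insert_self y U)
    have hyb : pne S T ω₂ y ≤ α + β * M := hy2.trans (hstep ω₁ hc M hM1 y hyW)
    refine ⟨ω₂, hc2, fun z => ?_, fun z hz => ?_⟩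
    · by_cases hzy : z = y
      · rw [hzy]; exact hyb.trans hM
      · rw [hne z hzy]; exact hM1 z
    · by_cases hzy : z = y
      · rw [hzy]; exact hyb
      · rw [hne z hzy]
        exact hU1 z (Finset.mem_of_mem_insert_of_ne hz hzy)

theorem st_SWP (h1 : ST_UPD) : ST_SWP := by
  intro n S T W α β hS hT hα hβ hβ2 hoff hstep
  have key : ∀ t : ℕ, ∃ ω : (Fin n → ℕ) → (Fin n → ℕ) → ℝ, Cpl S T ω ∧
      ∀ z, pne S T ω z ≤ 2 * α + (1 / 2 : ℝ) ^ t := by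
    intro t
    induction t with
    | zero =>
      refine ⟨_, swp_prod hS hT, fun z => ?_⟩
      have h := swp_le_one (swp_prod hS hT) hS z
      rw [pow_zero]
      linarith
    | succ t ih =>
      obtain ⟨ω, hc, hM⟩ := ih
      have hp : (0 : ℝ) < (1 / 2 : ℝ) ^ t := by positivity
      have hMM : α + β * (2 * α + (1 / 2 : ℝ) ^ t) ≤ 2 * α + (1 / 2 : ℝ) ^ (t + 1) := by
        have h2 : β * (2 * α + (1 / 2 : ℝ) ^ t) ≤ 1 / 2 * (2 * α + (1 / 2 : ℝ) ^ t) :=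
          mul_le_mul_of_nonneg_right hβ2 (by positivity)
        rw [pow_succ]
        linarith
      have hMM2 : α + β * (2 * α + (1 / 2 : ℝ) ^ t) ≤ 2 * α + (1 / 2 : ℝ) ^ t := by
        refine hMM.trans ?_
        rw [pow_succ]
        linarith
      obtain ⟨ω', hc', _, hW'⟩ := swp_sweep h1 hS hT hstep hMM2 hc hM W (Finset.Subset.refl W)
      refine ⟨ω', hc', fun z => ?_⟩
      by_cases hz : z ∈ W
      · exact (hW' z hz).trans hMM
      · rw [swp_zero z (hoff z hz)]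
        positivity
  obtain ⟨t, ht⟩ := exists_pow_lt_of_lt_one hα (by norm_num : (1 / 2 : ℝ) < 1)
  obtain ⟨ω, hc, hM⟩ := key t
  exact ⟨ω, hc, fun z => (hM z).trans (by linarith)⟩

end Pool.Agent.Helper8.UN
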